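import Pool.Agent.Lib.MP_8fac41_lc.FR.T.Cof
import Pool.Agent.Lib.MP_8fac41_lc.FR.P.Red
import Pool.Agent.Lib.MP_8fac41_lc.FR.P.Trf
import Pool.Agent.Lib.MP_8fac41_lc.FR.P.Fork

/-!
# FRT-NoTh: there is no thread through the generic system (the `U1` side)

Proof. For almost all `ν`: `top c0 < ν`, `W_cof`, and (`W_clo`) for `p ≤ c0` with `top p < ν` and `α ∈ p.a` there is `q ≤ p` with `top q < ν` and
`Γ α Y q` for some `Y`. Fix such a `ν`. Take `c0' ≤ c0` with top `ν` (`exists_top`) and `t ≤ c0'` with `Γ ν Z t`. `Z` is not empty, let `ξ₀ ∈ Z`.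
By `W_cof` there is `μ < ν` above `t.a ∩ Iio ν` and `α`, `μ ≤ α < ν` (`α = μ` is fine). `fork` gives `t1, t2 ≤ t`. Again by `W_cof` there is `τ < ν` above
`t1.a ∩ Iio ν`. The reduct `redE t1 ν τ` is below `c0` (`redE_le`) and contains `α`, so some `q` below it with `top q < ν` has `Γ α Y q`. `reduct`: `t1' ≤ t1`,
`t1' ≤ q`. `transfer` (`N = {ξ₀}`): `t2' ≤ t2` with `Sim {ξ₀} ν t2' t1'`; `rst t2' ν = rst t1' ν = q`, so `t2' ≤ q` (`le_rst`). Now `Γ α Y`, `Γ ν Z` hold for `t1'`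
and `t2'`. `t1'.r ξ₀ α ν` (`t1' ≤ t1`), so `ξ₀ ∈ Y` by `h1`; then `t2'.r ξ₀ α ν` by `h2`, contradiction with `t2' ≤ t2`, `¬ t2.r ξ₀ α ν`.
-/

set_option autoImplicit false

universe u

namespace Pool.MP_8fac41_lc.FR

open Cardinal Set Filter

variable {D X : Type u} [LinearOrder D] [WellFoundedLT D] [LinearOrder X] [WellFoundedLT X] [Sett D X]


theorem no_thread (c0 : E D X) (Γ : X → Set D → E D X → Prop)
    (hopen : ∀ α Y p q, q ≤ p → Γ α Y p → Γ α Y q)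
    (hdense : ∀ p, p ≤ c0 → ∀ α ∈ p.1.a, ∃ q, q ≤ p ∧ ∃ Y, Γ α Y q)
    (hmem : ∀ α Y p, Γ α Y p → Y.Nonempty)
    (h1 : ∀ α β Y Z p, α ∈ p.1.a → β ∈ p.1.a → α < β → Γ α Y p → Γ β Z p → ∀ ξ ∈ Z, p.1.r ξ α β → ξ ∈ Y)
    (h2 : ∀ α β Y Z p, α ∈ p.1.a → β ∈ p.1.a → α < β → Γ α Y p → Γ β Z p → ∀ ξ ∈ Y, ξ ∈ Z → p.1.r ξ α β) :
    False := by
  classical
  -- the function of the next tops
  let g : E D X → X → X → X := fun p α _ =>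
    if h : p ≤ c0 ∧ α ∈ p.1.a then top (hdense p h.1 α h.2).choose else α
  have hg : ∀ p (hp : p ≤ c0) α (hα : α ∈ p.1.a) β, ∃ q, q ≤ p ∧ (∃ Y, Γ α Y q) ∧ top q = g p α β := by
    intro p hp α hα β
    refine ⟨(hdense p hp α hα).choose, (hdense p hp α hα).choose_spec.1,
      (hdense p hp α hα).choose_spec.2, ?_⟩
    have h : p ≤ c0 ∧ α ∈ p.1.a := ⟨hp, hα⟩
    show _ = dite _ _ _
    rw [dif_pos h]
  have hW : (FW D X).NeBot := inferInstance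
  obtain ⟨ν, hc0, hcof, hclo⟩ : ∃ ν : X, top c0 < ν ∧
      (∀ S : Set X, #S ≤ 2 ^ #D → (∀ x ∈ S, x < ν) → ∃ μ, μ < ν ∧ ∀ x ∈ S, x < μ) ∧
      (∀ p : E D X, top p < ν → ∀ α, α < ν → ∀ β, β < ν → g p α β < ν) := by
    have h := ((Sett.nW (D := D) (X := X)).tail (top c0)).and ((W_cof (D := D) (X := X)).and
      (W_clo g))
    obtain ⟨ν, hν⟩ := h.exists
    exact ⟨ν, hν.1, hν.2.1, hν.2.2⟩
  have hsmall : ∀ t : E D X, ∃ μ, μ < ν ∧ ∀ x ∈ t.1.a, x < ν → x < μ := by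
    intro t
    obtain ⟨μ, hμ, h⟩ := hcof (t.1.a ∩ Iio ν)
      ((mk_le_mk_of_subset inter_subset_left).trans t.2.1.card) (fun x hx => hx.2)
    exact ⟨μ, hμ, fun x hx hxν => h x ⟨hx, hxν⟩⟩
  obtain ⟨c0', hc0', htop, -⟩ := exists_top c0 hc0
  have hνc : ν ∈ c0'.1.a := by
    rw [← htop]
    exact top_mem c0'
  obtain ⟨t, ht, Z, hZ⟩ := hdense c0' hc0' ν hνc
  obtain ⟨ξ₀, hξ₀⟩ := hmem ν Z t hZ
  have hνt : ν ∈ t.1.a := ht.1 hνc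
  obtain ⟨α, hαν, hα⟩ := hsmall t
  obtain ⟨t1, t2, ht1, ht2, hsim, hα1, hα2, hr1, hr2, -⟩ := fork t hνt hα hαν ξ₀
  have hν1 : ν ∈ t1.1.a := hsim.m0
  obtain ⟨τ, hτν, hτ⟩ := hsmall t1
  have hred : redE t1 ν τ hν1 hτ ≤ c0 :=
    redE_le t1 ν τ hν1 hτ hc0 (ht1.trans (ht.trans hc0'))
  have hαred : α ∈ (redE t1 ν τ hν1 hτ).1.a := Or.inr ⟨hα1, hαν⟩
  obtain ⟨q, hq, ⟨Y, hY⟩, hqtop⟩ := hg _ hred α hαred α
  have hqν : top q < ν := by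
    rw [hqtop]
    refine hclo _ ?_ α hαν α hαν
    rw [top_redE]
    exact hτν
  obtain ⟨t1', ht1', ht1q, hrst1, hν1', -⟩ := reduct t1 hν1 hτ hτν hqν hq
  have hN : ∀ᶠ ξ in F1 D X, ξ ∉ ({ξ₀} : Set D) := by
    filter_upwards [(Sett.n1 (D := D) (X := X)).tail ξ₀] with ξ hξ hξ'
    rw [mem_singleton_iff] at hξ'
    rw [hξ'] at hξ
    exact lt_irrefl _ hξ
  obtain ⟨t2', ht2', hsim'⟩ := transfer hN hsim ht1'
  have ht2q : t2' ≤ q := by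
    have h : rst t2'.1 ν = q.1 := hsim'.rst.trans hrst1
    show t2'.1 ≤ q.1
    rw [← h]
    exact le_rst _ _
  have a1 : Γ α Y t1' := hopen _ _ _ _ ht1q hY
  have a2 : Γ α Y t2' := hopen _ _ _ _ ht2q hY
  have b1 : Γ ν Z t1' := hopen _ _ _ _ (ht1'.trans ht1) hZ
  have b2 : Γ ν Z t2' := hopen _ _ _ _ (ht2'.trans ht2) hZ
  have r1 : t1'.1.r ξ₀ α ν := (ht1'.2 ξ₀ α hα1 ν hν1).2 hr1
  have hξY : ξ₀ ∈ Y := h1 α ν Y Z t1' (ht1'.1 hα1) (ht1'.1 hν1) hαν a1 b1 ξ₀ hξ₀ r1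
  have hν2 : ν ∈ t2.1.a := hsim.m1
  have r2 : t2'.1.r ξ₀ α ν := h2 α ν Y Z t2' (ht2'.1 hα2) (ht2'.1 hν2) hαν a2 b2 ξ₀ hξY hξ₀
  exact hr2 ((ht2'.2 ξ₀ α hα2 ν hν2).1 r2)

end Pool.MP_8fac41_lc.FR
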