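import Pool.Agent.Lib.MP_8fac41_lc.FR.T.Cl3

/-!
# FRT-Th3: coherence of `Θ_ν`

Let `ta, Ya` witness `Thn s α ξ` and `tb, Yb` witness `Thn s β ξ`. `reduct`: `a ≤ ta, s`, `b ≤ tb, s`, `rst a ν = s = rst b ν`, and for `U1`-almost all `η` both have
`P η ν = s.Q η (top s)`; so `Sim N ν a b` with `N` the set of the other `η`, `Sm1 N`. `dec2` for `β` and then for `α`: `a' ≤ a`, `b' ≤ b`, `Sim N ν a' b'`, both decide
`(α, ν)` and `(β, ν)`: `H β ν Zb a'`, also `H β ν Yb b'`. Since `¬ Split tt ξ N` (pair `(b', a')`) and `ξ ∈ Yb`, `ξ ∈ Zb`. In `a'`: `H α ν Ya`, `H β ν Zb`, `H α β Y`, `ξ ∈ Ya`, `ξ ∈ Zb`: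
`HH.h2` gives `ξ ∈ Y`. (Only `dec2` for `β` is needed.)
-/

set_option autoImplicit false

universe u

namespace Pool.MP_8fac41_lc.FR

open Cardinal Set Filter

variable {D X : Type u} [LinearOrder D] [WellFoundedLT D] [LinearOrder X] [WellFoundedLT X] [Sett D X]


variable {c0 : E D X} {C : Set X} {H : X → X → Set D → E D X → Prop} {ν : X} {tt : E D X}


theorem th3 (h : TT c0 C H ν tt) {s : E D X} (hs : top s < ν) {α β : X} (hβ : β ∈ C) (hαβ : α < β)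
    (hβν : β < ν) {ξ : D} (ha : Thn C H ν tt s α ξ) (hb : Thn C H ν tt s β ξ) {Y : Set D} (hH : H α β Y s) : ξ ∈ Y := by
  obtain ⟨hns, ta, hta, Ya, hξa, hHa, τa, hνa, hτa, hτaν, hsa⟩ := ha
  obtain ⟨-, tb, htb, Yb, hξb, hHb, τb, hνb, hτb, hτbν, hsb⟩ := hb
  obtain ⟨a, haa, has, hra, hma, hPa⟩ := reduct ta hνa hτa hτaν hs hsa
  obtain ⟨b, hbb, hbs, hrb, hmb, hPb⟩ := reduct tb hνb hτb hτbν hs hsb
  let N : Set D := {η | ¬ (a.1.P η ν = s.1.Q η (top s) ∧ b.1.P η ν = s.1.Q η (top s))}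
  have hN : Sm1 D X N := by
    show ∀ᶠ η in F1 D X, η ∉ N
    filter_upwards [hPa, hPb] with η h1 h2 hη
    exact hη ⟨h1, h2⟩
  have hsim : Sim N ν a.1 b.1 := by
    refine ⟨hma, hmb, hra.trans hrb.symm, fun η hη => ?_⟩
    have h1 : a.1.P η ν = s.1.Q η (top s) ∧ b.1.P η ν = s.1.Q η (top s) := by
      by_contra h2
      exact hη h2
    rw [h1.1, h1.2]
  obtain ⟨a', b', ha', hb', hsim', Zb, Yb', hHZ, -⟩ :=
    dec2 h hN (haa.trans hta) (hbb.trans htb) hsim hβ hβν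
  have hHb' : H β ν Yb b' := h.hh.opn β ν Yb tb b' (hb'.trans hbb) hHb
  have hξZ : ξ ∈ Zb := by
    by_contra hξZ
    exact hns N hN ⟨b', a', (hb'.trans hbb).trans htb, (ha'.trans haa).trans hta, hsim'.symm,
      β, hβ, hβν, Yb, Zb, hHb', hHZ, hξb, hξZ⟩
  have hHa' : H α ν Ya a' := h.hh.opn α ν Ya ta a' (ha'.trans haa) hHa
  have hHY : H α β Y a' := h.hh.opn α β Y s a' (ha'.trans has) hH
  exact h.hh.h2 α β ν Y Zb Ya a' hαβ hβν hHY hHZ hHa' ξ hξa hξZ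

end Pool.MP_8fac41_lc.FR
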