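import Pool.Agent.Lib.MP_8fac41_lc.FR.T.Th2
import Pool.Agent.Lib.MP_8fac41_lc.FR.T.Th3
import Pool.Agent.Lib.MP_8fac41_lc.FR.T.NoTh

/-!
# FRT-Goal: coherent families have threads

For almost all `ν` choose `tt ν`, `τ ν`, `q ν = redE (tt ν) ν (τ ν)` (`top (q ν) = τ ν < ν`), constant `= q` for almost all `ν` (`W_E`); `q ≤ c0` (`redE_le`).
`Θ s α ξ` = for almost all `ν`, `Thn (tt ν) s α ξ`. Open: clear (`Thn` is). Dense: for almost all `ν` `th2` gives `s' ν ≤ s`, `top (s' ν) < ν`, and `Z ν = {ξ | Thn .. (s' ν) α ξ}` in `U0`;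
`s' ν` and `Z ν` are constant for almost all `ν` (`W_E`, `W_cst`, `c_lt_X`). Coherence: `th3` for one `ν`.
-/

set_option autoImplicit false

universe u

namespace Pool.MP_8fac41_lc.FR

open Cardinal Set Filter

variable {D X : Type u} [LinearOrder D] [WellFoundedLT D] [LinearOrder X] [WellFoundedLT X] [Sett D X]


theorem thread {c0 : E D X} {C : Set X} {H : X → X → Set D → E D X → Prop} (h : HH c0 C H) :
    ∃ q : E D X, q ≤ c0 ∧ ∃ Θ : E D X → X → D → Prop,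
      (∀ s s' α ξ, s' ≤ s → Θ s α ξ → Θ s' α ξ) ∧
      (∀ s, s ≤ q → ∀ α ∈ C, ∃ s', s' ≤ s ∧ ∀ᶠ ξ in F0 D X, Θ s' α ξ) ∧
      ∀ s α β ξ Y, α ∈ C → β ∈ C → α < β → Θ s α ξ → Θ s β ξ → H α β Y s → ξ ∈ Y := by
  classical
  have hne : Nonempty (E D X) := nonempty_E
  have hneX : Nonempty X := ⟨top (Classical.choice hne)⟩
  have htail : ∀ x : X, ∀ᶠ ν in FW D X, x < ν := (Sett.nW : Nrm (Sett.W D : Ultrafilter X)).tail
  have hex : ∀ᶠ ν in FW D X, ∃ (t : E D X) (τ : X), TT c0 C H ν t ∧ τ < ν ∧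
      ∀ x ∈ t.1.a, x < ν → x < τ := by
    filter_upwards [nu_all h] with ν hν
    obtain ⟨t, ht⟩ := exists_tt h hν
    obtain ⟨τ, h1, h2⟩ := exists_red hν t
    exact ⟨t, τ, ht, h1, h2⟩
  obtain ⟨tt, htt⟩ : ∃ tt : X → E D X, ∀ᶠ ν in FW D X, ∃ τ : X, TT c0 C H ν (tt ν) ∧ τ < ν ∧
      ∀ x ∈ (tt ν).1.a, x < ν → x < τ := by
    refine ⟨fun ν => if hn : ∃ (t : E D X) (τ : X), TT c0 C H ν t ∧ τ < ν ∧
      ∀ x ∈ t.1.a, x < ν → x < τ then hn.choose else Classical.choice hne, ?_⟩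
    filter_upwards [hex] with ν hν
    simp only [dif_pos hν]
    exact hν.choose_spec
  obtain ⟨q, hqν⟩ : ∃ q : X → E D X, ∀ᶠ ν in FW D X, TT c0 C H ν (tt ν) ∧ top (q ν) < ν ∧
      ∃ (τ : X) (hm : ν ∈ (tt ν).1.a) (hτ : ∀ x ∈ (tt ν).1.a, x < ν → x < τ), τ < ν ∧
        q ν = redE (tt ν) ν τ hm hτ := by
    refine ⟨fun ν => if hn : ∃ τ : X, TT c0 C H ν (tt ν) ∧ τ < ν ∧
      ∀ x ∈ (tt ν).1.a, x < ν → x < τ then redE (tt ν) ν hn.choose hn.choose_spec.1.mem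
        hn.choose_spec.2.2 else Classical.choice hne, ?_⟩
    filter_upwards [htt] with ν hν
    simp only [dif_pos hν]
    refine ⟨hν.choose_spec.1, ?_, hν.choose, hν.choose_spec.1.mem, hν.choose_spec.2.2,
      hν.choose_spec.2.1, rfl⟩
    rw [top_redE]
    exact hν.choose_spec.2.1
  obtain ⟨q0, hq0⟩ := W_E (hqν.mono fun ν hν => hν.2.1)
  refine ⟨q0, ?_, fun s α ξ => ∀ᶠ ν in FW D X, Thn C H ν (tt ν) s α ξ, ?_, ?_, ?_⟩
  · obtain ⟨ν, hν, hν0⟩ := (hqν.and hq0).exists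
    obtain ⟨h1, -, τ, hm, hτ, -, h2⟩ := hν
    rw [← hν0, h2]
    exact redE_le _ _ _ _ _ h1.nu.c0lt h1.le
  · intro s s' α ξ hss hs
    filter_upwards [hs] with ν hν
    obtain ⟨h1, t, ht, Y, hY, hH, τ, hm, hτ, hτν, hle⟩ := hν
    exact ⟨h1, t, ht, Y, hY, hH, τ, hm, hτ, hτν, hss.trans hle⟩
  · intro s hs α hα
    have hex2 : ∀ᶠ ν in FW D X, ∃ s' : E D X, s' ≤ s ∧ top s' < ν ∧
        ∀ᶠ ξ in F0 D X, Thn C H ν (tt ν) s' α ξ := by
      filter_upwards [hqν, hq0, htail α, htail (top s)] with ν hν hν0 hαν hsν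
      obtain ⟨h1, -, τ, hm, hτ, hτν, h2⟩ := hν
      refine th2 h1 hτ hτν hsν ?_ hα hαν
      rw [← hν0, h2] at hs
      exact hs
    obtain ⟨s', hs'⟩ : ∃ s' : X → E D X, ∀ᶠ ν in FW D X, s' ν ≤ s ∧ top (s' ν) < ν ∧
        ∀ᶠ ξ in F0 D X, Thn C H ν (tt ν) (s' ν) α ξ := by
      refine ⟨fun ν => if hn : ∃ s' : E D X, s' ≤ s ∧ top s' < ν ∧
        ∀ᶠ ξ in F0 D X, Thn C H ν (tt ν) s' α ξ then hn.choose else Classical.choice hne, ?_⟩
      filter_upwards [hex2] with ν hν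
      simp only [dif_pos hν]
      exact hν.choose_spec
    obtain ⟨s1, hs1⟩ := W_E (hs'.mono fun ν hν => hν.2.1)
    have hcard : #(Set D) < #X := by
      rw [mk_set]
      exact c_lt_X D X
    obtain ⟨Z0, hZ0⟩ := W_cst (D := D) hcard (fun ν => {ξ | Thn C H ν (tt ν) (s' ν) α ξ})
    obtain ⟨ν1, hν1, hν2, hν3⟩ := (hs'.and (hs1.and hZ0)).exists
    refine ⟨s1, ?_, ?_⟩
    · rw [← hν2]
      exact hν1.1
    · have hZ : ∀ᶠ ξ in F0 D X, ξ ∈ Z0 := by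
        rw [← hν3]
        exact hν1.2.2
      filter_upwards [hZ] with ξ hξ
      filter_upwards [hs1, hZ0] with ν h1 h2
      rw [← h2] at hξ
      rw [← h1]
      exact hξ
  · intro s α β ξ Y hα hβ hαβ ha hb hH
    obtain ⟨ν, h1, h2, h3, h4, h5⟩ :=
      (hqν.and ((htail β).and ((htail (top s)).and (ha.and hb)))).exists
    exact th3 h1.1 h3 hβ hαβ h2 h4 h5 hH

end Pool.MP_8fac41_lc.FR
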