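import Pool.Agent.Lib.MP_8fac41_lc.FR.T.Cof
import Pool.Agent.Lib.MP_8fac41_lc.FR.P.Dist
import Pool.Agent.Lib.MP_8fac41_lc.FR.P.Red
import Pool.Agent.Lib.MP_8fac41_lc.FR.P.Trf

/-!
# FRT-Defs: coherent families (the `U0` side), definitions

`H α β Y p`: the condition `p` decides that `Y` is the set of the `ξ` with `x_β(ξ) ∩ α = x_α(ξ)`.
-/

set_option autoImplicit false

universe u

namespace Pool.MP_8fac41_lc.FR

open Cardinal Set Filter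

variable {D X : Type u} [LinearOrder D] [WellFoundedLT D] [LinearOrder X] [WellFoundedLT X] [Sett D X]


/-- coherent families -/
structure HH (c0 : E D X) (C : Set X) (H : X → X → Set D → E D X → Prop) : Prop where
  hC : ∀ᶠ ν in FW D X, ν ∈ C
  opn : ∀ α β Y p q, q ≤ p → H α β Y p → H α β Y q
  den : ∀ α ∈ C, ∀ β ∈ C, α < β → ∀ p, p ≤ c0 → ∃ q, q ≤ p ∧ ∃ Y, H α β Y q
  mem : ∀ α β Y p, H α β Y p → ∀ᶠ ξ in F0 D X, ξ ∈ Y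
  h1 : ∀ α β γ Y Z T p, α < β → β < γ → H α β Y p → H β γ Z p → H α γ T p → ∀ ξ ∈ Y, ξ ∈ Z → ξ ∈ T
  h2 : ∀ α β γ Y Z T p, α < β → β < γ → H α β Y p → H β γ Z p → H α γ T p → ∀ ξ ∈ T, ξ ∈ Z → ξ ∈ Y

/-- the properties of almost all `ν` -/
structure Nu (c0 : E D X) (C : Set X) (H : X → X → Set D → E D X → Prop) (ν : X) : Prop where
  inC : ν ∈ C
  lim : ∀ μ, μ < ν → ∃ α ∈ C, μ < α ∧ α < ν
  cof : ∀ S : Set X, #S ≤ 2 ^ #D → (∀ x ∈ S, x < ν) → ∃ μ, μ < ν ∧ ∀ x ∈ S, x < μ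
  clo : ∀ p : E D X, top p < ν → p ≤ c0 → ∀ α ∈ C, ∀ β ∈ C, α < β → β < ν → ∃ q, q ≤ p ∧ top q < ν ∧ ∃ Y, H α β Y q
  c0lt : top c0 < ν

/-- `N` is small for `U1` -/
def Sm1 (D X : Type u) [LinearOrder D] [WellFoundedLT D] [LinearOrder X] [WellFoundedLT X] [Sett D X] (N : Set D) : Prop :=
  ∀ᶠ ξ in F1 D X, ξ ∉ N

/-- below `t` there are two conditions, equal below `ν` and up to `N` at `ν`, which decide differently whether `ξ` is in the set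
for `(α, ν)` -/
def Split (C : Set X) (H : X → X → Set D → E D X → Prop) (ν : X) (t : E D X) (ξ : D) (N : Set D) : Prop :=
  ∃ t0 t1 : E D X, t0 ≤ t ∧ t1 ≤ t ∧ Sim N ν t0.1 t1.1 ∧ ∃ α ∈ C, α < ν ∧ ∃ Y0 Y1 : Set D,
    H α ν Y0 t0 ∧ H α ν Y1 t1 ∧ ξ ∈ Y0 ∧ ξ ∉ Y1

/-- the condition `t**` -/
structure TT (c0 : E D X) (C : Set X) (H : X → X → Set D → E D X → Prop) (ν : X) (tt : E D X) : Prop where
  hh : HH c0 C H
  nu : Nu c0 C H ν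
  mem : ν ∈ tt.1.a
  le : tt ≤ c0
  stab : ∀ ξ N, Split C H ν tt ξ N → ∀ t, t ≤ tt → Split C H ν t ξ N

/-- `Θ_ν` -/
def Thn (C : Set X) (H : X → X → Set D → E D X → Prop) (ν : X) (tt s : E D X) (α : X) (ξ : D) : Prop :=
  (∀ N, Sm1 D X N → ¬ Split C H ν tt ξ N) ∧ ∃ t, t ≤ tt ∧ ∃ Y : Set D, ξ ∈ Y ∧ H α ν Y t ∧
    ∃ (τ : X) (hν : ν ∈ t.1.a) (hτ : ∀ x ∈ t.1.a, x < ν → x < τ), τ < ν ∧ s ≤ redE t ν τ hν hτ

end Pool.MP_8fac41_lc.FR
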