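import Pool.Agent.Lib.MP_8fac41_lc.FR.T.Dec
import Pool.Agent.Lib.MP_8fac41_lc.FR.P.Mix

/-!
# FRT-Cl1: the splitting sets are upward closed and prime

`cl1_mono`: `Sim.mono`. `cl1`: let `u0, u1`, `α`, `Y0`, `Y1` witness the splitting for `N1 ∪ N2`. `mix`: `u2 ≤ tt`, `Sim N1 ν u2 u0`, `Sim N2 ν u2 u1`. `dec1`:
`w2 ≤ u2`, `H α ν Y2 w2`. `transfer`: `w0 ≤ u0` with `Sim N1 ν w0 w2` and `w1 ≤ u1` with `Sim N2 ν w1 w2`. If `ξ ∈ Y2` then `(w2, w1)` splits for `N2`, otherwise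
`(w0, w2)` splits for `N1`.
-/

set_option autoImplicit false

universe u

namespace Pool.MP_8fac41_lc.FR

open Cardinal Set Filter

variable {D X : Type u} [LinearOrder D] [WellFoundedLT D] [LinearOrder X] [WellFoundedLT X] [Sett D X]


variable {c0 : E D X} {C : Set X} {H : X → X → Set D → E D X → Prop} {ν : X} {tt : E D X}


theorem cl1_mono {ξ : D} {N N' : Set D} (hN : N ⊆ N') (h : Split C H ν tt ξ N) : Split C H ν tt ξ N' := by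
  obtain ⟨t0, t1, h0, h1, hs, h2⟩ := h
  exact ⟨t0, t1, h0, h1, hs.mono hN, h2⟩

theorem cl1 (h : TT c0 C H ν tt) {ξ : D} {N1 N2 : Set D} (h1 : Sm1 D X N1) (h2 : Sm1 D X N2)
    (hs : Split C H ν tt ξ (N1 ∪ N2)) : Split C H ν tt ξ N1 ∨ Split C H ν tt ξ N2 := by
  obtain ⟨u0, u1, hu0, hu1, hsim, α, hα, hαν, Y0, Y1, hH0, hH1, hξ0, hξ1⟩ := hs
  obtain ⟨u2, hu2, hs0, hs1⟩ := mix h.mem hu0 hu1 hsim
  obtain ⟨w2, hw2, Y2, hH2⟩ := dec1 h hu2 hα hαν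
  obtain ⟨w0, hw0, hsw0⟩ := transfer h1 hs0 hw2
  obtain ⟨w1, hw1, hsw1⟩ := transfer h2 hs1 hw2
  by_cases hξ2 : ξ ∈ Y2
  · right
    exact ⟨w2, w1, hw2.trans hu2, hw1.trans hu1, hsw1.symm, α, hα, hαν, Y2, Y1, hH2,
      h.hh.opn α ν Y1 u1 w1 hw1 hH1, hξ2, hξ1⟩
  · left
    exact ⟨w0, w2, hw0.trans hu0, hw2.trans hu2, hsw0, α, hα, hαν, Y0, Y2,
      h.hh.opn α ν Y0 u0 w0 hw0 hH0, hH2, hξ0, hξ2⟩

end Pool.MP_8fac41_lc.FR
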