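import Pool.Agent.Lib.MP_8fac41_lc.FR.T.Cl2b

/-!
# FRT-Cl2

Suppose `∀ᶠ i in F0, Split tt i N`. `dist_pair` for `I = D`, `G i a a' = (Split tt i N → Dif i a a')` (`cl2a`; if `i` does not split take the pair itself), then `cl2b`.
-/

set_option autoImplicit false

universe u

namespace Pool.MP_8fac41_lc.FR

open Cardinal Set Filter

variable {D X : Type u} [LinearOrder D] [WellFoundedLT D] [LinearOrder X] [WellFoundedLT X] [Sett D X]


variable {c0 : E D X} {C : Set X} {H : X → X → Set D → E D X → Prop} {ν : X} {tt : E D X}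


theorem cl2 (h : TT c0 C H ν tt) {N : Set D} (hN : Sm1 D X N) : ∀ᶠ i in F0 D X, ¬ Split C H ν tt i N := by
  by_contra hcon
  have hF : ∀ᶠ i in F0 D X, Split C H ν tt i N := by
    by_contra h2
    exact hcon ((Ultrafilter.eventually_not).mpr h2)
  obtain ⟨s, s', hs, hs', hss, hG⟩ := dist_pair (I := D) (N := N) (cantor _).le h.mem
    (fun i a a' => Split C H ν tt i N → Dif C H ν i a a')
    (by
      intro i a a' b b' hb hb' hg hi
      obtain ⟨α, hα, hαν, Y, Y', hY, hY', hne⟩ := hg hi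
      exact ⟨α, hα, hαν, Y, Y', h.hh.opn _ _ _ _ _ hb hY, h.hh.opn _ _ _ _ _ hb' hY', hne⟩)
    (by
      intro i a a' ha ha' hsim
      by_cases hi : Split C H ν tt i N
      · obtain ⟨b, b', hb, hb', hs, hd⟩ := cl2a h hN hi ha ha' hsim
        exact ⟨b, b', hb, hb', hs, fun _ => hd⟩
      · exact ⟨a, a', le_rfl, le_rfl, hsim, fun hh => absurd hh hi⟩)
  exact cl2b h hN hF hs hs' hss hG

end Pool.MP_8fac41_lc.FR
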