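import Pool.Agent.Lib.MP_8fac41_lc.FR.T.Dec

/-!
# FRT-Cl2a: one step

`Split tt i N` gives `Split a i N` (`TT.stab`): `u0, u1 ≤ a`, `Sim N ν u0 u1`, `α`, `H α ν Y0 u0`, `H α ν Y1 u1`, `i ∈ Y0`, `i ∉ Y1`. `transfer` `u0` to `w ≤ a'` (`Sim N ν w u0`).
`dec1`: `w' ≤ w` with `H α ν Z w'`. `transfer` `w'` back: `v0 ≤ u0` and `v1 ≤ u1` with `Sim N ν v0 w'`, `Sim N ν v1 w'` (`Sim.trans'`). If `i ∈ Z` take `(v1, w')`,
otherwise `(v0, w')`.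
-/

set_option autoImplicit false

universe u

namespace Pool.MP_8fac41_lc.FR

open Cardinal Set Filter

variable {D X : Type u} [LinearOrder D] [WellFoundedLT D] [LinearOrder X] [WellFoundedLT X] [Sett D X]


variable {c0 : E D X} {C : Set X} {H : X → X → Set D → E D X → Prop} {ν : X} {tt : E D X}


/-- the two conditions decide differently whether `i` is in the set of some `(α, ν)` -/
def Dif (C : Set X) (H : X → X → Set D → E D X → Prop) (ν : X) (i : D) (b b' : E D X) : Prop :=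
  ∃ α ∈ C, α < ν ∧ ∃ Y Y' : Set D, H α ν Y b ∧ H α ν Y' b' ∧ ¬ (i ∈ Y ↔ i ∈ Y')

theorem cl2a (h : TT c0 C H ν tt) {N : Set D} (hN : Sm1 D X N) {i : D} (hi : Split C H ν tt i N) {a a' : E D X}
    (ha : a ≤ tt) (ha' : a' ≤ tt) (hs : Sim N ν a.1 a'.1) :
    ∃ b b', b ≤ a ∧ b' ≤ a' ∧ Sim N ν b.1 b'.1 ∧ Dif C H ν i b b' := by
  obtain ⟨u0, u1, hu0, hu1, hsim, α, hα, hαν, Y0, Y1, hH0, hH1, hi0, hi1⟩ := h.stab i N hi a ha
  obtain ⟨w, hw, hsw⟩ := transfer hN hs hu0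
  obtain ⟨w', hw', Z, hHZ⟩ := dec1 h (hw.trans ha') hα hαν
  obtain ⟨v0, hv0, hsv0⟩ := transfer hN hsw hw'
  obtain ⟨v1, hv1, hsv1⟩ := transfer hN (hsw.trans' hsim) hw'
  by_cases hiZ : i ∈ Z
  · refine ⟨v1, w', hv1.trans hu1, hw'.trans hw, hsv1, α, hα, hαν, Y1, Z,
      h.hh.opn α ν Y1 u1 v1 hv1 hH1, hHZ, fun hh => hi1 (hh.2 hiZ)⟩
  · refine ⟨v0, w', hv0.trans hu0, hw'.trans hw, hsv0, α, hα, hαν, Y0, Z,
      h.hh.opn α ν Y0 u0 v0 hv0 hH0, hHZ, fun hh => hiZ (hh.1 hi0)⟩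

end Pool.MP_8fac41_lc.FR
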