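import Pool.Agent.Lib.MP_8fac41_lc.FR.T.Defs

/-!
# FRT-Nu: almost all `ν` are good, and `t**` exists

`nu_all`: `W_cof`, `W_lim`, `tail`, and `W_clo` for `g p α β` = the top of some `q ≤ p` with `H α β Y q` (if `p ≤ c0`, `α, β ∈ C`, `α < β`; anything else
otherwise). `exists_tt`: start with `c1 ≤ c0` with top `ν` (`exists_top`); `dist` for `I = D × Set D` (`#I = 2 ^ #D`) and the sets
`G (ξ, N) = {t | Split t ξ N → ∀ t' ≤ t, Split t' ξ N}`: open because `Split` is inherited upwards (`split_mono`); dense: if some `t' ≤ t` does not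
split, take `t'`, otherwise `t`. `exists_red`: `Nu.cof` for `t.a ∩ Iio ν`.
-/

set_option autoImplicit false

universe u

namespace Pool.MP_8fac41_lc.FR

open Cardinal Set Filter

variable {D X : Type u} [LinearOrder D] [WellFoundedLT D] [LinearOrder X] [WellFoundedLT X] [Sett D X]


variable {c0 : E D X} {C : Set X} {H : X → X → Set D → E D X → Prop} {ν : X} {tt : E D X}


theorem nu_all (h : HH c0 C H) : ∀ᶠ ν in FW D X, Nu c0 C H ν := by
  classical
  let g : E D X → X → X → X := fun p α β =>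
    if h' : (α ∈ C ∧ β ∈ C ∧ α < β) ∧ p ≤ c0 then
      top (h.den α h'.1.1 β h'.1.2.1 h'.1.2.2 p h'.2).choose else α
  have hg : ∀ p, p ≤ c0 → ∀ α ∈ C, ∀ β ∈ C, α < β →
      ∃ q, q ≤ p ∧ top q = g p α β ∧ ∃ Y, H α β Y q := by
    intro p hp α hα β hβ hαβ
    have h' : (α ∈ C ∧ β ∈ C ∧ α < β) ∧ p ≤ c0 := ⟨⟨hα, hβ, hαβ⟩, hp⟩
    refine ⟨(h.den α hα β hβ hαβ p hp).choose, (h.den α hα β hβ hαβ p hp).choose_spec.1, ?_,
      (h.den α hα β hβ hαβ p hp).choose_spec.2⟩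
    show _ = dite _ _ _
    rw [dif_pos h']
  filter_upwards [h.hC, W_lim h.hC, W_cof (D := D) (X := X), W_clo g,
    (Sett.nW (D := D) (X := X)).tail (top c0)] with ν h1 h2 h3 h4 h5
  refine ⟨h1, h2, h3, ?_, h5⟩
  intro p hp hpc α hα β hβ hαβ hβν
  obtain ⟨q, hq, hqt, hY⟩ := hg p hpc α hα β hβ hαβ
  refine ⟨q, hq, ?_, hY⟩
  rw [hqt]
  exact h4 p hp α (hαβ.trans hβν) β hβν

theorem split_mono {t' t : E D X} (h : t' ≤ t) {ξ : D} {N : Set D} (hs : Split C H ν t' ξ N) : Split C H ν t ξ N := by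
  obtain ⟨t0, t1, h0, h1, h2⟩ := hs
  exact ⟨t0, t1, h0.trans h, h1.trans h, h2⟩

theorem exists_tt (h : HH c0 C H) (hν : Nu c0 C H ν) : ∃ tt, TT c0 C H ν tt := by
  classical
  obtain ⟨c1, hc1, htop, -⟩ := exists_top c0 hν.c0lt
  have hI : #(D × Set D) ≤ 2 ^ #D := by
    rw [mk_prod, lift_id, lift_id, mk_set]
    have h1 : ℵ₀ ≤ (2 : Cardinal.{u}) ^ #D := aleph0_le_c D X
    exact mul_le_of_le h1 (cantor _).le le_rfl
  obtain ⟨q, hq, hG⟩ := dist hI c1
    (fun i => {t : E D X | Split C H ν t i.1 i.2 → ∀ t', t' ≤ t → Split C H ν t' i.1 i.2})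
    (by
      intro i a b hba ha hsb t' ht'
      exact ha (split_mono hba hsb) t' (ht'.trans hba))
    (by
      intro i a _
      by_cases hex : ∃ t', t' ≤ a ∧ ¬ Split C H ν t' i.1 i.2
      · obtain ⟨t', ht', hns⟩ := hex
        exact ⟨t', ht', fun hs => absurd hs hns⟩
      · push Not at hex
        exact ⟨a, le_rfl, fun _ => hex⟩)
  refine ⟨q, h, hν, ?_, hq.1.trans hc1, ?_⟩
  · have h1 : ν ∈ c1.1.a := by
      rw [← htop]
      exact top_mem c1
    exact hq.1.1 h1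
  · intro ξ N hs t ht
    exact hG (ξ, N) hs t ht

/-- there is a place for the reduct -/
theorem exists_red (hν : Nu c0 C H ν) (t : E D X) : ∃ τ, τ < ν ∧ ∀ x ∈ t.1.a, x < ν → x < τ := by
  obtain ⟨μ, hμ, h⟩ := hν.cof (t.1.a ∩ Iio ν)
    ((mk_le_mk_of_subset inter_subset_left).trans t.2.1.card) (fun x hx => hx.2)
  exact ⟨μ, hμ, fun x hx hxν => h x ⟨hx, hxν⟩⟩

end Pool.MP_8fac41_lc.FR
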