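import Pool.Agent.Lib.MP_8fac41_lc.FR.T.Cl2a
import Pool.Agent.Lib.MP_8fac41_lc.FR.T.Nu

/-!
# FRT-Cl2b: the final contradiction

`s, s' ≤ tt`, `Sim N ν s s'`. Choose `α i` for the `i` with `Split tt i N`; the set of the `α i` is bounded below `ν` (`Nu.cof`, `#D ≤ 2 ^ #D`), so there is `β ∈ C`,
`β < ν`, above all `α i` (`Nu.lim`). `dec2`: `b ≤ s`, `b' ≤ s'`, `H β ν Z b`, `H β ν Z' b'`. By `HH.mem` and the assumption there is `i ∈ Z ∩ Z'` with `Split tt i N`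
(the three sets are in `U0`). `exists_red` and `redE_le`: the reduct of `b` is below `c0`; `Nu.clo` gives `q` below it, `top q < ν`, `H (α i) β T q`. `reduct`: `t ≤ b`,
`t ≤ q`, `rst t ν = q`; `transfer`: `t' ≤ b'`, `Sim N ν t' t`, so `rst t' ν = q` and `t' ≤ q`. By `h1`, `h2` for `t`: `i ∈ Y ↔ i ∈ T`, and for `t'`: `i ∈ Y' ↔ i ∈ T`.
-/

set_option autoImplicit false

universe u

namespace Pool.MP_8fac41_lc.FR

open Cardinal Set Filter

variable {D X : Type u} [LinearOrder D] [WellFoundedLT D] [LinearOrder X] [WellFoundedLT X] [Sett D X]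


variable {c0 : E D X} {C : Set X} {H : X → X → Set D → E D X → Prop} {ν : X} {tt : E D X}


theorem cl2b (h : TT c0 C H ν tt) {N : Set D} (hN : Sm1 D X N) (hF : ∀ᶠ i in F0 D X, Split C H ν tt i N)
    {s s' : E D X} (hs : s ≤ tt) (hs' : s' ≤ tt) (hss : Sim N ν s.1 s'.1)
    (hd : ∀ i, Split C H ν tt i N → Dif C H ν i s s') : False := by
  classical
  -- the ordinals `α i`
  let S : Set X := {x | x < ν ∧ ∃ i, ∃ hi : Split C H ν tt i N, x = (hd i hi).choose}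
  have hScard : #S ≤ 2 ^ #D := by
    have h1 : #S ≤ #D := by
      let f : S → D := fun x => x.2.2.choose
      have hf : Function.Injective f := by
        intro x y hxy
        obtain ⟨hi, hx⟩ := x.2.2.choose_spec
        obtain ⟨hi', hy⟩ := y.2.2.choose_spec
        have hxy' : x.2.2.choose = y.2.2.choose := hxy
        apply Subtype.ext
        rw [hx, hy]
        congr 1
        simp only [hxy']
      exact mk_le_of_injective hf
    exact h1.trans (cantor _).le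
  obtain ⟨μ, hμν, hμ⟩ := h.nu.cof S hScard (fun x hx => hx.1)
  obtain ⟨β, hβ, hμβ, hβν⟩ := h.nu.lim μ hμν
  obtain ⟨b, b', hb, hb', hbb, Z, Z', hZ, hZ'⟩ := dec2 h hN hs hs' hss hβ hβν
  obtain ⟨i, hi, hiZ, hiZ'⟩ :=
    (hF.and ((h.hh.mem β ν Z b hZ).and (h.hh.mem β ν Z' b' hZ'))).exists
  have hα := (hd i hi).choose_spec
  set α := (hd i hi).choose with hαdef
  obtain ⟨hαC, hαν, Y, Y', hY, hY', hne⟩ := hα
  have hαβ : α < β := (hμ α ⟨hαν, i, hi, hαdef⟩).trans hμβ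
  have hbt : b ≤ tt := hb.trans hs
  have hνb : ν ∈ b.1.a := (show b.1 ≤ tt.1 from hbt).1 h.mem
  obtain ⟨τ, hτν, hτ⟩ := exists_red h.nu b
  have hred : redE b ν τ hνb hτ ≤ c0 := redE_le b ν τ hνb hτ h.nu.c0lt (hbt.trans h.le)
  obtain ⟨q, hq, hqν, T, hT⟩ := h.nu.clo (redE b ν τ hνb hτ)
    (by rw [top_redE]; exact hτν) hred α hαC β hβ hαβ hβν
  obtain ⟨t, htb, htq, hrst, -, -⟩ := reduct b hνb hτ hτν hqν hq
  obtain ⟨t', htb', hsim⟩ := transfer hN hbb htb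
  have hrst' : rst t'.1 ν = q.1 := hsim.rst.trans hrst
  have htq' : t' ≤ q := by
    have h1 : t'.1 ≤ rst t'.1 ν := le_rst t'.1 ν
    rw [hrst'] at h1
    exact h1
  have e1 : i ∈ Y ↔ i ∈ T :=
    ⟨fun hh => h.hh.h2 α β ν T Z Y t hαβ hβν (h.hh.opn _ _ _ _ _ htq hT)
        (h.hh.opn _ _ _ _ _ htb hZ) (h.hh.opn _ _ _ _ _ (htb.trans hb) hY) i hh hiZ,
     fun hh => h.hh.h1 α β ν T Z Y t hαβ hβν (h.hh.opn _ _ _ _ _ htq hT)
        (h.hh.opn _ _ _ _ _ htb hZ) (h.hh.opn _ _ _ _ _ (htb.trans hb) hY) i hh hiZ⟩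
  have e2 : i ∈ Y' ↔ i ∈ T :=
    ⟨fun hh => h.hh.h2 α β ν T Z' Y' t' hαβ hβν (h.hh.opn _ _ _ _ _ htq' hT)
        (h.hh.opn _ _ _ _ _ htb' hZ') (h.hh.opn _ _ _ _ _ (htb'.trans hb') hY') i hh hiZ',
     fun hh => h.hh.h1 α β ν T Z' Y' t' hαβ hβν (h.hh.opn _ _ _ _ _ htq' hT)
        (h.hh.opn _ _ _ _ _ htb' hZ') (h.hh.opn _ _ _ _ _ (htb'.trans hb') hY') i hh hiZ'⟩
  exact hne (e1.trans e2.symm)

end Pool.MP_8fac41_lc.FR
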