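import Pool.Agent.Lib.MP_8fac41_lc.FR.T.Cl1
import Pool.Agent.Lib.MP_8fac41_lc.FR.T.Cl2

/-!
# FRT-Cl3: almost no `ξ` splits

Suppose not; then (ultrafilter) for `U0`-almost all `ξ` there is `n ξ` with `Sm1 (n ξ)`, `Split tt ξ (n ξ)` (choose `n ξ = ∅` for the others). `N* = {η | ∃ ξ < η, η ∈ n ξ}` is small
(`Nrm.normal` of `U1`). `n ξ ⊆ N* ∪ Iic ξ`, so by `cl1_mono`, `cl1` and `cl2 N*` almost all `ξ` have `Split tt ξ (Iic ξ)` (`Iic ξ` is small: `tail`). `U0 ≠ U1`: there is `S ∈ U0`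
which is small for `U1`; by `cl2 S` and `cl1_mono` almost all `ξ` have `¬ Split tt ξ {ξ}` (`{ξ} ⊆ S` for `ξ ∈ S`), so `Split tt ξ (Iio ξ)` for almost all `ξ`.
With `w ξ = {A | A ⊆ Iio ξ, Split tt ξ A}` we show `Mit U1 U0`, contradiction with `Sett.mit`: if `A ∈ U1`, then `Aᶜ` is small, so by `cl2` almost all `ξ` have
`¬ Split tt ξ (Iio ξ \ A)`, and `Iio ξ = (A ∩ Iio ξ) ∪ (Iio ξ \ A)`, so `Split tt ξ (A ∩ Iio ξ)`. If `A ∉ U1` then `A` is small, and by `cl2` almost all `ξ`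
have `¬ Split tt ξ (A ∩ Iio ξ)`.
-/

set_option autoImplicit false

universe u

namespace Pool.MP_8fac41_lc.FR

open Cardinal Set Filter

variable {D X : Type u} [LinearOrder D] [WellFoundedLT D] [LinearOrder X] [WellFoundedLT X] [Sett D X]


variable {c0 : E D X} {C : Set X} {H : X → X → Set D → E D X → Prop} {ν : X} {tt : E D X}


private theorem sm1_mono_cl3 {N N' : Set D} (h : N ⊆ N') (h' : Sm1 D X N') : Sm1 D X N := by
  unfold Sm1 at h' ⊢
  filter_upwards [h'] with ξ hξ hξ'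
  exact hξ (h hξ')

variable (X) in
private theorem sm1_Iic_cl3 (ξ : D) : Sm1 D X (Iic ξ) := by
  unfold Sm1
  have h1 := (Sett.n1 (D := D) (X := X)).tail ξ
  filter_upwards [h1] with y hy hy'
  exact absurd hy (not_lt.mpr hy')

theorem cl3 (h : TT c0 C H ν tt) : ∀ᶠ ξ in F0 D X, ∀ N, Sm1 D X N → ¬ Split C H ν tt ξ N := by
  classical
  by_contra hcon
  have hev : ∀ᶠ ξ in F0 D X, ∃ N, Sm1 D X N ∧ Split C H ν tt ξ N := by
    have h1 := (Ultrafilter.eventually_not (f := (Sett.U0 X : Ultrafilter D))).mpr hcon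
    filter_upwards [h1] with ξ hξ
    push Not at hξ
    exact hξ
  -- the choice of the small sets
  let n : D → Set D := fun ξ =>
    if hN : ∃ N, Sm1 D X N ∧ Split C H ν tt ξ N then hN.choose else ∅
  have n_sm : ∀ ξ, Sm1 D X (n ξ) := by
    intro ξ
    by_cases hN : ∃ N, Sm1 D X N ∧ Split C H ν tt ξ N
    · simp only [n, dif_pos hN]
      exact hN.choose_spec.1
    · simp only [n, dif_neg hN]
      exact Filter.Eventually.of_forall fun y => Set.notMem_empty y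
  have n_split : ∀ᶠ ξ in F0 D X, Split C H ν tt ξ (n ξ) := by
    filter_upwards [hev] with ξ hN
    simp only [n, dif_pos hN]
    exact hN.choose_spec.2
  let Ns : Set D := {η | ∃ ξ, ξ < η ∧ η ∈ n ξ}
  have Ns_sm : Sm1 D X Ns := by
    have h1 := (Sett.n1 (D := D) (X := X)).normal (fun i y => y ∉ n i) n_sm
    unfold Sm1
    filter_upwards [h1] with y hy
    rintro ⟨ξ, hξ, hξ'⟩
    exact hy ξ hξ hξ'
  have hIic : ∀ᶠ ξ in F0 D X, Split C H ν tt ξ (Iic ξ) := by
    filter_upwards [n_split, cl2 h Ns_sm] with ξ h1 h2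
    have h3 : Split C H ν tt ξ (Ns ∪ Iic ξ) := by
      refine cl1_mono ?_ h1
      intro η hη
      rcases lt_or_ge ξ η with h4 | h4
      · exact Or.inl ⟨ξ, h4, hη⟩
      · exact Or.inr h4
    rcases cl1 h Ns_sm (sm1_Iic_cl3 X ξ) h3 with h4 | h4
    · exact absurd h4 h2
    · exact h4
  obtain ⟨S, hS0, hS1⟩ : ∃ S : Set D, S ∈ (Sett.U0 X : Ultrafilter D) ∧
      S ∉ (Sett.U1 X : Ultrafilter D) := by
    by_contra hne
    push Not at hne
    have h1 : (F1 D X) ≤ (F0 D X) := fun s hs => hne s hs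
    exact (Sett.ne (D := D) (X := X)) (Ultrafilter.coe_le_coe.mp h1).symm
  have hSsm : Sm1 D X S := Ultrafilter.compl_mem_iff_notMem.mpr hS1
  have hIio : ∀ᶠ ξ in F0 D X, Split C H ν tt ξ (Iio ξ) := by
    filter_upwards [hIic, cl2 h hSsm, hS0] with ξ h1 h2 h3
    have h4 : Iic ξ = Iio ξ ∪ {ξ} := by
      ext y
      simp only [mem_Iic, Set.mem_union, mem_Iio, Set.mem_singleton_iff]
      exact le_iff_lt_or_eq
    rw [h4] at h1
    rcases cl1 h (sm1_mono_cl3 Iio_subset_Iic_self (sm1_Iic_cl3 X ξ))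
      (sm1_mono_cl3 (Set.singleton_subset_iff.mpr h3) hSsm) h1 with h5 | h5
    · exact h5
    · exact absurd (cl1_mono (Set.singleton_subset_iff.mpr h3) h5) h2
  refine (Sett.mit (D := D) (X := X)) ⟨fun ξ => {A | A ⊆ Iio ξ ∧ Split C H ν tt ξ A}, ?_⟩
  intro A
  constructor
  · intro hA
    have hAc : Sm1 D X Aᶜ := by
      unfold Sm1
      filter_upwards [hA] with y hy hy'
      exact hy' hy
    have h1 : ∀ᶠ ξ in F0 D X, A ∩ Iio ξ ⊆ Iio ξ ∧ Split C H ν tt ξ (A ∩ Iio ξ) := by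
      filter_upwards [hIio, cl2 h hAc] with ξ h2 h3
      refine ⟨Set.inter_subset_right, ?_⟩
      have h4 : Iio ξ = (A ∩ Iio ξ) ∪ (Iio ξ \ A) := by
        ext y
        simp only [mem_Iio, Set.mem_union, Set.mem_inter_iff, Set.mem_sdiff]
        tauto
      have hsm := sm1_mono_cl3 (Iio_subset_Iic_self) (sm1_Iic_cl3 X ξ)
      rw [h4] at h2
      rcases cl1 h (sm1_mono_cl3 Set.inter_subset_right hsm)
        (sm1_mono_cl3 Set.sdiff_subset hsm) h2 with h5 | h5
      · exact h5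
      · exact absurd (cl1_mono (fun y hy => hy.2) h5) h3
    exact h1
  · intro hA
    by_contra hA'
    have hAsm : Sm1 D X A := Ultrafilter.compl_mem_iff_notMem.mpr hA'
    have h1 : ∀ᶠ ξ in F0 D X, False := by
      filter_upwards [hA, cl2 h hAsm] with ξ h2 h3
      exact h3 (cl1_mono Set.inter_subset_left h2.2)
    exact h1.exists.elim fun _ h => h

end Pool.MP_8fac41_lc.FR
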