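import Pool.Agent.Lib.MP_8fac41_lc.FR.T.W

/-!
# FRT-Cof: almost all `ν` have large cofinality

Let `ν` be such that some `S ⊆ Iio ν` of size `≤ 2 ^ #D` is cofinal in `ν`, for almost all `ν` (ultrafilter: the negation of the claim holds almost
everywhere). Take surjections `f ν : c → S_ν` (`c` a type of size `2 ^ #D`; `S_ν` is not empty for `ν ≠ ⊥`); each `f · i` is regressive, so constant
`= g i` on a set in `W` (`W_lt`), all at once by `Nrm.compl` (`c_lt_X`); then almost all `ν` have the same cofinal set `range g`,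
contradiction with `tail` (two different `ν`).
-/

set_option autoImplicit false

universe u

namespace Pool.MP_8fac41_lc.FR

open Cardinal Set Filter

variable {D X : Type u} [LinearOrder D] [WellFoundedLT D] [LinearOrder X] [WellFoundedLT X] [Sett D X]


theorem W_cof : ∀ᶠ ν in FW D X, ∀ S : Set X, #S ≤ 2 ^ #D → (∀ x ∈ S, x < ν) → ∃ μ, μ < ν ∧ ∀ x ∈ S, x < μ := by
  by_contra hcon
  rw [← Ultrafilter.eventually_not] at hcon
  have hX : Nonempty X := by
    have h1 : #D < #X := Sett.DX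
    have h2 : #X ≠ 0 := (lt_of_le_of_lt (Cardinal.zero_le _) h1).ne'
    exact Cardinal.mk_ne_zero_iff.mp h2
  obtain ⟨x0⟩ := hX
  have hnW : Nrm (Sett.W D : Ultrafilter X) := Sett.nW
  have hg : ∀ᶠ ν in FW D X, ∃ f : Set D → X, (∀ i, f i < ν) ∧ ∀ μ, μ < ν → ∃ i, μ ≤ f i := by
    filter_upwards [hcon, hnW.tail x0] with ν hν hx0
    push Not at hν
    obtain ⟨S, hS, hSν, hcof⟩ := hν
    obtain ⟨s0, hs0, _⟩ := hcof x0 hx0
    have hne : Nonempty S := ⟨⟨s0, hs0⟩⟩
    have hle : #S ≤ #(Set D) := by rw [Cardinal.mk_set]; exact hS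
    obtain ⟨e⟩ := (Cardinal.le_def S (Set D)).mp hle
    obtain ⟨F, hF⟩ : ∃ F : Set D → S, Function.Surjective F :=
      ⟨Function.invFun e, Function.invFun_surjective e.injective⟩
    refine ⟨fun i => (F i : X), fun i => hSν _ (F i).2, fun μ hμ => ?_⟩
    obtain ⟨x, hx, hμx⟩ := hcof μ hμ
    obtain ⟨i, hi⟩ := hF ⟨x, hx⟩
    exact ⟨i, by change μ ≤ ((F i : S) : X); rw [hi]; exact hμx⟩
  classical
  let f : X → Set D → X := fun ν => if h : ∃ f : Set D → X, (∀ i, f i < ν) ∧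
    ∀ μ, μ < ν → ∃ i, μ ≤ f i then h.choose else fun _ => x0
  have hf : ∀ᶠ ν in FW D X, (∀ i, f ν i < ν) ∧ ∀ μ, μ < ν → ∃ i, μ ≤ f ν i := by
    filter_upwards [hg] with ν hν
    have : f ν = hν.choose := by simp only [f]; rw [dif_pos hν]
    rw [this]
    exact hν.choose_spec
  have hc : ∀ i : Set D, ∃ g, ∀ᶠ ν in FW D X, f ν i = g := fun i =>
    W_lt (f := fun ν => f ν i) (by filter_upwards [hf] with ν hν using hν.1 i)
  choose g hg' using hc
  have hlt : #(Set D) < #X := by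
    rw [Cardinal.mk_set]
    have hst : (#X).IsStrongLimit := Sett.stX D
    exact hst.two_power_lt Sett.DX
  have hall := hnW.compl (Set D) (fun i ν => f ν i = g i) hlt hg'
  have hboth := hall.and hf
  obtain ⟨ν1, h1⟩ := hboth.exists
  obtain ⟨ν2, h2, h3⟩ := (hboth.and (hnW.tail ν1)).exists
  obtain ⟨i, hi⟩ := h2.2.2 ν1 h3
  rw [h2.1 i, ← h1.1 i] at hi
  exact absurd (h1.2.1 i) (not_lt.mpr hi)

end Pool.MP_8fac41_lc.FR
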