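import Pool.Agent.Lib.MP_8fac41_lc.FR.T.Defs

/-!
# FRT-Dec: deciding for pairs

`dec1`: `HH.den` for `β < ν` (both in `C`). `dec2`: extend `a` to `a1` which decides, `transfer` to `a1' ≤ a'`, extend `a1'` to `b'` which decides,
`transfer` back to `b ≤ a1` (`Sim.symm`).
-/

set_option autoImplicit false

universe u

namespace Pool.MP_8fac41_lc.FR

open Cardinal Set Filter

variable {D X : Type u} [LinearOrder D] [WellFoundedLT D] [LinearOrder X] [WellFoundedLT X] [Sett D X]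


variable {c0 : E D X} {C : Set X} {H : X → X → Set D → E D X → Prop} {ν : X} {tt : E D X}


theorem dec1 (h : TT c0 C H ν tt) {a : E D X} (ha : a ≤ tt) {β : X} (hβ : β ∈ C) (hβν : β < ν) :
    ∃ b, b ≤ a ∧ ∃ Y, H β ν Y b :=
  h.hh.den β hβ ν h.nu.inC hβν a (ha.trans h.le)

theorem dec2 (h : TT c0 C H ν tt) {N : Set D} (hN : Sm1 D X N) {a a' : E D X} (ha : a ≤ tt) (ha' : a' ≤ tt)
    (hs : Sim N ν a.1 a'.1) {β : X} (hβ : β ∈ C) (hβν : β < ν) :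
    ∃ b b', b ≤ a ∧ b' ≤ a' ∧ Sim N ν b.1 b'.1 ∧ ∃ Y Y', H β ν Y b ∧ H β ν Y' b' := by
  obtain ⟨a1, ha1, Y, hY⟩ := dec1 h ha hβ hβν
  obtain ⟨a1', ha1', hs1⟩ := transfer hN hs ha1
  obtain ⟨b', hb', Y', hY'⟩ := dec1 h (ha1'.trans ha') hβ hβν
  obtain ⟨b, hb, hs2⟩ := transfer hN hs1 hb'
  exact ⟨b, b', hb.trans ha1, hb'.trans ha1', hs2, Y, Y', h.hh.opn _ _ _ _ _ hb hY, hY'⟩

end Pool.MP_8fac41_lc.FR
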