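import Pool.Agent.Lib.MP_8fac41_lc.FR.T.Cl3

/-!
# FRT-Th2: density of `Θ_ν`

`reduct`: `t' ≤ tt`, `t' ≤ s`, `rst t' ν = s`. `dec1`: `t'' ≤ t'`, `H α ν Y t''`. Let `τ'` be a place for the reduct of `t''` (`exists_red`), `s' = redE t'' ν τ'`:
`s' ≤ s` because `rst t'' ν ≤ rst t' ν = s` (`rst_mono`, `addTop_le`). All `ξ ∈ Y` which satisfy `cl3` are fine (`HH.mem`).
-/

set_option autoImplicit false

universe u

namespace Pool.MP_8fac41_lc.FR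

open Cardinal Set Filter

variable {D X : Type u} [LinearOrder D] [WellFoundedLT D] [LinearOrder X] [WellFoundedLT X] [Sett D X]


variable {c0 : E D X} {C : Set X} {H : X → X → Set D → E D X → Prop} {ν : X} {tt : E D X}


theorem th2 (h : TT c0 C H ν tt) {τ : X} (hτ : ∀ x ∈ tt.1.a, x < ν → x < τ) (hτν : τ < ν) {s : E D X}
    (hs : top s < ν) (hst : s ≤ redE tt ν τ h.mem hτ) {α : X} (hα : α ∈ C) (hαν : α < ν) :
    ∃ s' : E D X, s' ≤ s ∧ top s' < ν ∧ ∀ᶠ ξ in F0 D X, Thn C H ν tt s' α ξ := by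
  obtain ⟨t', ht'tt, -, ht'r, hνt', -⟩ := reduct tt h.mem hτ hτν hs hst
  obtain ⟨t'', ht'', Y, hY⟩ := dec1 h ht'tt hα hαν
  have hνt'' : ν ∈ t''.1.a := ht''.1 hνt'
  obtain ⟨τ', hτ'ν, hτ''⟩ := h.nu.cof (t''.1.a ∩ Iio ν)
    ((Cardinal.mk_le_mk_of_subset Set.inter_subset_left).trans t''.2.1.card) (fun x hx => hx.2)
  have hτ' : ∀ x ∈ t''.1.a, x < ν → x < τ' := fun x hx hxν => hτ'' x ⟨hx, hxν⟩
  refine ⟨redE t'' ν τ' hνt'' hτ', ?_, ?_, ?_⟩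
  · have h1 : (redE t'' ν τ' hνt'' hτ').1 ≤ rst t''.1 ν :=
      addTop_le (t := rst t''.1 ν) (fun x hx => hτ' x hx.1 hx.2) (fun ξ => t''.1.P ξ ν)
    have h2 : rst t''.1 ν ≤ rst t'.1 ν := rst_mono ht'' ν
    rw [ht'r] at h2
    have h3 : (redE t'' ν τ' hνt'' hτ').1 ≤ s.1 := le_trans h1 h2
    exact h3
  · rw [top_redE]
    exact hτ'ν
  · filter_upwards [cl3 h, h.hh.mem α ν Y t'' hY] with ξ hξ hξY
    exact ⟨hξ, t'', le_trans ht'' ht'tt, Y, hξY, hY, τ', hνt'', hτ', hτ'ν, le_refl _⟩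

end Pool.MP_8fac41_lc.FR
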