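import Pool.Agent.Lib.MP_8fac41_lc.FR.P.Basic

/-!
# FRT-W: the ultrafilter `W`

* `card_top`: a condition with top `μ` is given by a subset of `Iic μ` and relations on it: inject into `Set (Iic μ) × Set (D × Iic μ × Iic μ)`,
  and `#X` is a strong limit.
* `W_clo`: for every `μ` the set of the `g p α β`, `top p ≤ μ`, `α, β ≤ μ`, is bounded (`card_top`, `bdd`), so for almost all `ν` (`tail`) it is below
  `ν`; then `normal` (for `top p, α, β < ν` take `μ` = the maximum).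
* `W_lt`: a regressive function is constant: otherwise for all `i` almost all `ν` have `f ν ≠ i` (ultrafilter), and `normal`.
* `W_cst`: fewer than `#X` values: `compl`. `W_E`: `top (q ν)` is constant (`W_lt`), then `W_cst` with `card_top` (or `compl`).
* `W_lim`: for every `μ` there is `α ∈ C` above `μ` (`tail`), and almost all `ν` are above `α`; `normal`.
-/

set_option autoImplicit false

universe u

namespace Pool.MP_8fac41_lc.FR

open Cardinal Set Filter

variable {D X : Type u} [LinearOrder D] [WellFoundedLT D] [LinearOrder X] [WellFoundedLT X] [Sett D X]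


private theorem W_iic (D : Type u) {X : Type u} [LinearOrder D] [WellFoundedLT D] [LinearOrder X]
    [WellFoundedLT X] [Sett D X] (μ : X) : #(Iic μ) < #X := by
  have hX : ℵ₀ ≤ #X := (Sett.stX (D := D) (X := X)).aleph0_le
  rw [← Set.Iio_insert]
  refine lt_of_le_of_lt (Cardinal.mk_insert_le) ?_
  exact Cardinal.add_lt_of_lt hX (Sett.smX (D := D) μ) (lt_of_lt_of_le Cardinal.one_lt_aleph0 hX)

private theorem W_bdd (D : Type u) {X : Type u} [LinearOrder D] [WellFoundedLT D] [LinearOrder X]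
    [WellFoundedLT X] [Sett D X] {S : Set X} (h : #S < #X) : ∃ m : X, ∀ x ∈ S, x < m := by
  by_contra hcon
  push Not at hcon
  have h1 : (⋃ x : S, Iic x.1) = (Set.univ : Set X) := by
    rw [Set.eq_univ_iff_forall]
    intro m
    obtain ⟨x, hx, hm⟩ := hcon m
    exact Set.mem_iUnion.2 ⟨⟨x, hx⟩, hm⟩
  have h2 : #(⋃ x : S, Iic x.1 : Set X) < #X :=
    (Cardinal.card_iUnion_lt_iff_forall_of_isRegular (Sett.regX (D := D) (X := X)) h).2
      fun x => W_iic D x.1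
  rw [h1, Cardinal.mk_univ] at h2
  exact lt_irrefl _ h2

theorem card_top (μ : X) : #{p : E D X // top p ≤ μ} < #X := by
  have hX : ℵ₀ ≤ #X := (Sett.stX (D := D) (X := X)).aleph0_le
  have h2 : ∀ c : Cardinal.{u}, c < #X → (2 : Cardinal.{u}) ^ c < #X := fun c hc =>
    (Sett.stX (D := D) (X := X)).isStrongPrelimit hc
  have h1 : #(Set (Iic μ) × Set (D × Iic μ × Iic μ)) < #X := by
    rw [Cardinal.mk_prod, Cardinal.lift_id, Cardinal.lift_id]
    refine Cardinal.mul_lt_of_lt hX ?_ ?_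
    · rw [Cardinal.mk_set]
      exact h2 _ (W_iic D μ)
    · rw [Cardinal.mk_set]
      refine h2 _ ?_
      rw [Cardinal.mk_prod, Cardinal.lift_id, Cardinal.lift_id, Cardinal.mk_prod,
        Cardinal.lift_id]
      exact Cardinal.mul_lt_of_lt hX (Sett.DX (D := D) (X := X))
        (Cardinal.mul_lt_of_lt hX (W_iic D μ) (W_iic D μ))
  refine lt_of_le_of_lt ?_ h1
  refine Cardinal.mk_le_of_injective (f := fun p : {p : E D X // top p ≤ μ} =>
    (({x | x.1 ∈ p.1.1.a} : Set (Iic μ)),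
      ({x | p.1.1.r x.1 x.2.1.1 x.2.2.1} : Set (D × Iic μ × Iic μ)))) ?_
  rintro ⟨p, hp⟩ ⟨q, hq⟩ hpq
  rw [Prod.mk.injEq] at hpq
  obtain ⟨h3, h4⟩ := hpq
  have ha : ∀ (p : E D X), top p ≤ μ → ∀ x ∈ p.1.a, x ∈ Iic μ := fun p hp x hx =>
    (le_top' p hx).trans hp
  apply Subtype.ext
  apply Subtype.ext
  refine Pre.ext ?_ ?_
  · ext x
    constructor
    · intro hx
      have h5 : (⟨x, ha p hp x hx⟩ : Iic μ) ∈ ({x | x.1 ∈ p.1.a} : Set (Iic μ)) := hx
      rw [h3] at h5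
      exact h5
    · intro hx
      have h5 : (⟨x, ha q hq x hx⟩ : Iic μ) ∈ ({x | x.1 ∈ q.1.a} : Set (Iic μ)) := hx
      rw [← h3] at h5
      exact h5
  · funext ξ α β
    apply propext
    constructor
    · intro hx
      have h6 := p.2.1.sup ξ α β hx
      have h5 : (ξ, (⟨α, ha p hp α h6.1⟩ : Iic μ), (⟨β, ha p hp β h6.2⟩ : Iic μ)) ∈
        ({x | p.1.r x.1 x.2.1.1 x.2.2.1} : Set (D × Iic μ × Iic μ)) := hx
      rw [h4] at h5
      exact h5
    · intro hx
      have h6 := q.2.1.sup ξ α β hx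
      have h5 : (ξ, (⟨α, ha q hq α h6.1⟩ : Iic μ), (⟨β, ha q hq β h6.2⟩ : Iic μ)) ∈
        ({x | q.1.r x.1 x.2.1.1 x.2.2.1} : Set (D × Iic μ × Iic μ)) := hx
      rw [← h4] at h5
      exact h5

theorem W_clo (g : E D X → X → X → X) :
    ∀ᶠ ν in FW D X, ∀ p : E D X, top p < ν → ∀ α, α < ν → ∀ β, β < ν → g p α β < ν := by
  have hX : ℵ₀ ≤ #X := (Sett.stX (D := D) (X := X)).aleph0_le
  have h1 : ∀ μ : X, ∀ᶠ ν in FW D X, ∀ p : E D X, top p ≤ μ → ∀ α, α ≤ μ → ∀ β, β ≤ μ →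
      g p α β < ν := by
    intro μ
    have h2 : #(Set.range fun x : {p : E D X // top p ≤ μ} × Iic μ × Iic μ =>
        g x.1.1 x.2.1.1 x.2.2.1) < #X := by
      refine lt_of_le_of_lt Cardinal.mk_range_le ?_
      rw [Cardinal.mk_prod, Cardinal.lift_id, Cardinal.lift_id, Cardinal.mk_prod,
        Cardinal.lift_id]
      exact Cardinal.mul_lt_of_lt hX (card_top μ)
        (Cardinal.mul_lt_of_lt hX (W_iic D μ) (W_iic D μ))
    obtain ⟨m, hm⟩ := W_bdd D h2
    filter_upwards [(Sett.nW (D := D) (X := X)).tail m] with ν hν p hp α hα β hβ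
    exact (hm _ ⟨(⟨p, hp⟩, ⟨α, hα⟩, ⟨β, hβ⟩), rfl⟩).trans hν
  filter_upwards [(Sett.nW (D := D) (X := X)).normal _ h1] with ν hν p hp α hα β hβ
  exact hν (max (top p) (max α β)) (max_lt hp (max_lt hα hβ)) p (le_max_left _ _) α
    ((le_max_left _ _).trans (le_max_right _ _)) β ((le_max_right _ _).trans (le_max_right _ _))

theorem W_lt {f : X → X} (h : ∀ᶠ ν in FW D X, f ν < ν) : ∃ i, ∀ᶠ ν in FW D X, f ν = i := by
  by_contra hcon
  push Not at hcon
  have h1 : ∀ i, ∀ᶠ ν in FW D X, f ν ≠ i := hcon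
  obtain ⟨ν, h2, h3⟩ := (((Sett.nW (D := D) (X := X)).normal _ h1).and h).exists
  exact h2 _ h3 rfl

theorem W_cst {Z : Type u} (hZ : #Z < #X) (f : X → Z) : ∃ z, ∀ᶠ ν in FW D X, f ν = z := by
  by_contra hcon
  push Not at hcon
  have h1 : ∀ i, ∀ᶠ ν in FW D X, f ν ≠ i := hcon
  obtain ⟨ν, h2⟩ := ((Sett.nW (D := D) (X := X)).compl Z _ hZ h1).exists
  exact h2 _ rfl

theorem W_E {q : X → E D X} (h : ∀ᶠ ν in FW D X, top (q ν) < ν) : ∃ q0, ∀ᶠ ν in FW D X, q ν = q0 := by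
  by_contra hcon
  push Not at hcon
  have h1 : ∀ i, ∀ᶠ ν in FW D X, q ν ≠ i := hcon
  obtain ⟨i, hi⟩ := W_lt h
  obtain ⟨ν, h2, h3⟩ := (((Sett.nW (D := D) (X := X)).compl {p : E D X // top p ≤ i}
    (fun p ν => q ν ≠ p.1) (card_top i) (fun p => h1 p.1)).and hi).exists
  exact h2 ⟨q ν, h3.le⟩ rfl

theorem W_lim {C : Set X} (h : ∀ᶠ ν in FW D X, ν ∈ C) : ∀ᶠ ν in FW D X, ∀ μ, μ < ν → ∃ α ∈ C, μ < α ∧ α < ν := by
  refine (Sett.nW (D := D) (X := X)).normal _ fun μ => ?_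
  obtain ⟨α, h1, h2⟩ := (h.and ((Sett.nW (D := D) (X := X)).tail μ)).exists
  filter_upwards [(Sett.nW (D := D) (X := X)).tail α] with ν hν
  exact ⟨α, h1, h2, hν⟩

end Pool.MP_8fac41_lc.FR
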